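import Pool.Agent.HS37.LD.Det

/-!
# Sun's determinant with the class number of `ℚ(√-p)`, for `p ≡ 3 (mod 4)`

Q2: for every prime `p ≡ 3 (mod 4)`, `p > 3`, there is an integer `q` such that, as polynomials in
`x, y, w` over `ℚ`, with `n = (p - 1)/2` and `h` the class number of `ℚ(√-p)`,
`(-1)^((h+1)/2) E_p = p^((p-3)/4) (n y - 1 + (2 - (2|p)) h (w + x) - (2|p) (16 q / p) w x)`.
Moreover `q = (2|p) ((1 - n) H² + 2 n C) / 16`, where `H = ∑_{i ≤ n} (i|p)` and `C` is the sum of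
`(i j|p)` over all `i, j ≥ 1` with `i + j ≤ n`.
-/

set_option autoImplicit false

namespace Pool.Agent.Results.MP_fe1d70_nt.SunThreeModFour

open Finset MvPolynomial NumberField

/-- The determinant `E_p = |x + (j+k|p) + (j-k|p) + (j|p) y + (jk|p) w|`, `1 ≤ j, k ≤ (p-1)/2`, as a
polynomial over `ℚ` in the variables `x = X 0`, `y = X 1`, `w = X 2`. -/
noncomputable def E (p : ℕ) [Fact p.Prime] : MvPolynomial (Fin 3) ℚ :=
  Matrix.det (Matrix.of fun j k : Fin ((p - 1) / 2) =>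
    (X 0 : MvPolynomial (Fin 3) ℚ)
      + C (legendreSym p (((j : ℤ) + 1) + ((k : ℤ) + 1)) : ℚ)
      + C (legendreSym p (((j : ℤ) + 1) - ((k : ℤ) + 1)) : ℚ)
      + C (legendreSym p ((j : ℤ) + 1) : ℚ) * X 1
      + C (legendreSym p (((j : ℤ) + 1) * ((k : ℤ) + 1)) : ℚ) * X 2)

lemma half_sum (p : ℕ) [Fact p.Prime] (h5 : 5 ≤ p) (h3 : p % 4 = 3) (m : ℕ) (hm : p = 2 * m + 1)
    (K : Type) [Field K] [NumberField K] (h2 : Module.finrank ℚ K = 2) (β : K)
    (hβ : β ^ 2 = -(p : K)) :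
    ∑ j, R945.LD.xv p m ℤ j = (2 - R945.LD.q p 2) * (classNumber K : ℤ) := by
  have h1 := Pool.Agent.R441.CN.classNumber_three h5 h3 K h2 β hβ
  have h4 := Pool.Agent.R343.CFP.S_T p h3
  have h6 := Pool.Agent.R343.CFP.S_range p m hm (by omega)
  have h7 : ∑ j, R945.LD.xv p m ℤ j = Pool.Agent.R343.CFP.S p := by
    rw [h6, ← Fin.sum_univ_eq_sum_range (fun s => jacobiSym ((s + 1 : ℕ) : ℤ) p)]
    apply Finset.sum_congr rfl
    intro j _
    rw [← jacobiSym.legendreSym.to_jacobiSym]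
    simp only [R945.LD.xv, R945.LD.J, Int.cast_id]
    unfold legendreSym
    push_cast
    rfl
  have h8 : jacobiSym 2 p = R945.LD.q p 2 := by
    rw [← jacobiSym.legendreSym.to_jacobiSym]
    unfold legendreSym
    push_cast
    rfl
  rw [h7]
  have hp0 : (p : ℤ) ≠ 0 := by omega
  apply mul_left_cancel₀ hp0
  rw [h4, h8]
  linear_combination (-(2 - R945.LD.q p 2)) * h1

/-- **Q2.** For every prime `p ≡ 3 (mod 4)` with `p > 3` there is an integer `q`, depending only on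
`p`, such that `(-1)^((h+1)/2) E_p = p^((p-3)/4) (n y - 1 + (2 - (2|p)) h (w + x) - (2|p) (16q/p) w x)`,
where `n = (p-1)/2` and `h` is the class number of `ℚ(√-p)`. -/
theorem result (p : ℕ) [Fact p.Prime] (hp : p % 4 = 3) (hp3 : 3 < p) :
    ∃ q : ℤ,
      16 * q = legendreSym p 2 *
        ((1 - ((p - 1) / 2 : ℕ)) * (∑ i ∈ Icc 1 ((p - 1) / 2), legendreSym p i) ^ 2 +
          2 * ((p - 1) / 2 : ℕ) *
            ∑ x ∈ (Icc 1 ((p - 1) / 2) ×ˢ Icc 1 ((p - 1) / 2)).filter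
              (fun x => x.1 + x.2 ≤ (p - 1) / 2), legendreSym p (x.1 * x.2)) ∧
      ∀ (K : Type) [Field K] [NumberField K], Module.finrank ℚ K = 2 →
        (∃ β : K, β ^ 2 = -(p : K)) →
        (-1) ^ ((classNumber K + 1) / 2) * E p =
          C ((p : ℚ) ^ ((p - 3) / 4)) *
            (C (((p - 1) / 2 : ℕ) : ℚ) * X 1 - 1
              + C ((2 - (legendreSym p 2 : ℚ)) * (classNumber K : ℚ)) * (X 2 + X 0)
              - C ((legendreSym p 2 : ℚ) * (16 * q / p)) * (X 2 * X 0)) := by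
  have hpp : p.Prime := Fact.out
  obtain ⟨n, hn⟩ : ∃ n, p = 2 * n + 1 := ⟨p / 2, by omega⟩
  have hn2 : (p - 1) / 2 = n := by omega
  obtain ⟨t, ht⟩ := HS37.LD.T_mod hp hn
  have hL2 : legendreSym p 2 = R945.LD.q p 2 := by unfold legendreSym; push_cast; rfl
  have hq2 : R945.LD.q p 2 * R945.LD.q p 2 = 1 := R945.LD.q_sq (R945.LD.two_ne (by omega))
  have hH : ∑ i ∈ Icc 1 n, legendreSym p i = HS37.LD.H p n := by
    unfold HS37.LD.H legendreSym
    push_cast
    rfl
  have hC : ∑ x ∈ (Icc 1 n ×ˢ Icc 1 n).filter (fun x => x.1 + x.2 ≤ n), legendreSym p (x.1 * x.2)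
      = HS37.LD.CC p n := by
    unfold HS37.LD.CC HS37.LD.D
    apply Finset.sum_congr rfl
    intro x _
    rw [← R945.LD.q_mul]
    unfold legendreSym
    push_cast
    rfl
  refine ⟨R945.LD.q p 2 * t, ?_, ?_⟩
  · rw [hn2, hH, hC, hL2, ← HS37.LD.T_eq hp hn, ht]
    ring
  · intro K _ _ h2 ⟨β, hβ⟩
    have hS := half_sum p (by omega) hp n hn K h2 β hβ
    have hdetZ := R945.LD.det_B_three hp hn (by omega) (classNumber K) hS
    have hxH : ∑ j, R945.LD.xv p n ℤ j = HS37.LD.H p n := by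
      unfold HS37.LD.H
      rw [← HS37.LD.sum_J (p := p) (n := n) (fun a => R945.LD.q p a)]
      simp only [R945.LD.xv, Int.cast_id]
    rw [hxH] at hS
    have hp0 : (p : ℚ) ≠ 0 := by exact_mod_cast hpp.ne_zero
    -- the determinant over the polynomial ring
    have hc : (C (1 / (p : ℚ)) : MvPolynomial (Fin 3) ℚ) * ((p : ℕ) : MvPolynomial (Fin 3) ℚ) = 1 := by
      rw [← map_natCast (C : ℚ →+* MvPolynomial (Fin 3) ℚ), ← C_mul, one_div, inv_mul_cancel₀ hp0, C_1]
    have hdet := HS37.LD.det_Em hp hn (X 0 : MvPolynomial (Fin 3) ℚ) (X 1) (X 2) (C (1 / (p : ℚ))) hc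
    have hE : E p = (HS37.LD.Em p n (X 0 : MvPolynomial (Fin 3) ℚ) (X 1) (X 2)).det := by
      unfold E
      rw [hn2]
      congr 1
      ext1 j k
      simp only [Matrix.of_apply, HS37.LD.Em, R945.LD.Bm, R945.LD.xv, R945.LD.J]
      unfold legendreSym
      push_cast
      rw [map_mul]
      push_cast
      simp only [map_mul, map_intCast]
      have e5 : (1 : ZMod p) + (k : ZMod p) = (k : ZMod p) + 1 := by ring
      ring
    have hB : (R945.LD.Bm p n (MvPolynomial (Fin 3) ℚ)).det =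
        (((R945.LD.Bm p n ℤ).det : ℤ) : MvPolynomial (Fin 3) ℚ) := by
      have hmap : (R945.LD.Bm p n ℤ).map (Int.castRingHom (MvPolynomial (Fin 3) ℚ)) =
          R945.LD.Bm p n (MvPolynomial (Fin 3) ℚ) := by
        ext1 i j; simp [R945.LD.Bm]
      have h2 := (Int.castRingHom (MvPolynomial (Fin 3) ℚ)).map_det (R945.LD.Bm p n ℤ)
      rw [RingHom.mapMatrix_apply, hmap, eq_intCast] at h2
      exact h2.symm
    -- the class number is odd
    have hodd : ∃ k, classNumber K = 2 * k + 1 := by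
      have hHodd : (2 : ℤ) ∣ HS37.LD.H p n - n := by
        unfold HS37.LD.H
        have e4 : ∑ i ∈ Icc 1 n, R945.LD.q p (i : ZMod p) - (n : ℤ) =
            ∑ i ∈ Icc 1 n, (R945.LD.q p (i : ZMod p) - 1) := by
          rw [sum_sub_distrib]; simp
        rw [e4]
        apply dvd_sum
        intro i hi
        rw [mem_Icc] at hi
        rcases mul_self_eq_one_iff.mp (R945.LD.q_sq (HS37.LD.cast_ne hn hi.1 (by omega))) with h | h <;>
          rw [h] <;> norm_num
      rw [hS] at hHodd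
      rcases mul_self_eq_one_iff.mp hq2 with h | h <;> rw [h] at hHodd <;>
        exact ⟨classNumber K / 2, by omega⟩
    obtain ⟨k, hk⟩ := hodd
    have e1 : (classNumber K + 1) / 2 = k + 1 := by omega
    have e2 : (classNumber K - 1) / 2 = k := by omega
    rw [e2] at hdetZ
    rw [hE, hdet, hB, hdetZ, e1, hn2, hL2, ht, hS]
    have hsign : ((-1 : MvPolynomial (Fin 3) ℚ)) ^ (k + 1) * (-1) ^ k = -1 := by
      rw [← pow_add, show k + 1 + k = 2 * k + 1 by ring, pow_succ, pow_mul]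
      simp
    have hqq : (R945.LD.q p 2 : ℚ) * (16 * ((R945.LD.q p 2 * t : ℤ) : ℚ) / p) = (1 / p) * (16 * t : ℤ) := by
      have h : (R945.LD.q p 2 : ℚ) * (R945.LD.q p 2 : ℚ) = 1 := by exact_mod_cast hq2
      push_cast
      have e6 : (R945.LD.q p 2 : ℚ) * (16 * ((R945.LD.q p 2 : ℚ) * t) / p) =
        ((R945.LD.q p 2 : ℚ) * (R945.LD.q p 2 : ℚ)) * (16 * t / p) := by ring
      rw [e6, h]
      ring
    rw [hqq]
    simp only [map_mul, map_sub, map_natCast, map_intCast, map_pow, map_ofNat]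
    push_cast
    generalize (p : MvPolynomial (Fin 3) ℚ) ^ ((p - 3) / 4) = P
    generalize (C (1 / (p : ℚ)) : MvPolynomial (Fin 3) ℚ) = c
    linear_combination (P * (1 - n * X 1 - ((2 - (R945.LD.q p 2 : MvPolynomial (Fin 3) ℚ)) *
      (classNumber K : MvPolynomial (Fin 3) ℚ)) * (X 2 + X 0) + c * (16 * t) * (X 0 * X 2))) * hsign

end Pool.Agent.Results.MP_fe1d70_nt.SunThreeModFour
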